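import Pool.Agent.K1H80.KA.Stm

set_option autoImplicit false

/-!
# The rows of an oriented forest are independent
-/

namespace Pool.Agent.K1H4.KA

open Pool.Agent.KA MvPolynomial Finset

/-- Core: valuations. -/
theorem core (hB : FORBStm) {L : Type} [Field L] (V : ValuationSubring L) {ι α : Type}
    [Fintype ι] [DecidableEq α] (t h : ι → α) (hF : Forest t h) (c w : ι → L)
    (hw : ∀ e, V.valuation (w e) < 1)
    (hA : ∀ i, ∑ e, (if t e = i then c e else 0) = ∑ e, (if h e = i then c e * w e else 0))
    (hA' : ∀ i, ∑ e, (if h e = i then c e else 0) = ∑ e, (if t e = i then c e * w e else 0)) :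
    c = 0 := by
  by_contra hc
  obtain ⟨e1, he1⟩ : ∃ e, c e ≠ 0 := by
    by_contra hcon
    push Not at hcon
    exact hc (funext hcon)
  obtain ⟨e0, _, he0⟩ := Finset.exists_max_image (univ : Finset ι) (fun e => V.valuation (c e))
    ⟨e1, mem_univ _⟩
  have hc0 : c e0 ≠ 0 := by
    intro h0
    have h1 := he0 e1 (mem_univ _)
    rw [h0, map_zero] at h1
    have h2 : V.valuation (c e1) = 0 := le_antisymm h1 zero_le
    exact he1 ((V.valuation.zero_iff).1 h2)
  have hv0 : V.valuation (c e0) ≠ 0 := (V.valuation.ne_zero_iff).2 hc0
  have hd : ∀ e, c e / c e0 ∈ V := by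
    intro e
    rw [← V.valuation_le_one_iff, map_div₀]
    exact div_le_one_of_le₀ (he0 e (mem_univ _)) zero_le
  have hwm : ∀ e, w e ∈ V := fun e => (V.valuation_le_one_iff _).1 (hw e).le
  let D : ι → V := fun e => ⟨c e / c e0, hd e⟩
  let W : ι → V := fun e => ⟨w e, hwm e⟩
  have hW : ∀ e, IsLocalRing.residue V (W e) = 0 := by
    intro e
    rw [IsLocalRing.residue_eq_zero_iff]
    exact (V.valuation_lt_one_iff (W e)).2 (hw e)
  have hDA : ∀ (t h : ι → α), (∀ i, ∑ e, (if t e = i then c e else 0) =
      ∑ e, (if h e = i then c e * w e else 0)) → ∀ i,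
      ∑ e, (if t e = i then IsLocalRing.residue V (D e) else 0) = 0 := by
    intro t h hh i
    have h1 : ∑ e, (if t e = i then D e else 0) = ∑ e, (if h e = i then D e * W e else 0) := by
      apply Subtype.ext
      have e1 : ((∑ e, (if t e = i then D e else 0) : V) : L) =
          (∑ e, (if t e = i then c e else 0)) / c e0 := by
        rw [AddSubmonoidClass.coe_finsetSum, Finset.sum_div]
        refine sum_congr rfl fun e _ => ?_
        split_ifs
        · rfl
        · simp
      have e2 : ((∑ e, (if h e = i then D e * W e else 0) : V) : L) =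
          (∑ e, (if h e = i then c e * w e else 0)) / c e0 := by
        rw [AddSubmonoidClass.coe_finsetSum, Finset.sum_div]
        refine sum_congr rfl fun e _ => ?_
        split_ifs
        · show c e / c e0 * w e = _
          ring
        · simp
      rw [e1, e2, hh]
    have h2 := congrArg (IsLocalRing.residue V) h1
    rw [map_sum, map_sum] at h2
    have h3 : ∀ e ∈ (univ : Finset ι), IsLocalRing.residue V (if h e = i then D e * W e else 0) =
        0 := by
      intro e _
      split_ifs
      · rw [map_mul, hW, mul_zero]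
      · exact map_zero _
    rw [sum_eq_zero h3] at h2
    refine (sum_congr rfl fun e _ => ?_).trans h2
    split_ifs
    · rfl
    · exact (map_zero (IsLocalRing.residue V)).symm
  have hfin := hB ι α t h hF (IsLocalRing.ResidueField V)
    (fun e => IsLocalRing.residue V (D e)) (hDA t h hA) (hDA h t hA')
  have h4 : IsLocalRing.residue V (D e0) = 0 := congrFun hfin e0
  have h5 : D e0 = 1 := Subtype.ext (div_self hc0)
  rw [h5, map_one] at h4
  exact one_ne_zero h4

theorem prod2 {L : Type} [Field L] {α : Type} [Fintype α] [DecidableEq α] (g : α → L) {a b : α}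
    (hab : a ≠ b) :
    ∏ k, g k ^ (if k = a then (1 : ℤ) else if k = b then -1 else 0) = g a * (g b)⁻¹ := by
  have h : ∀ k ∈ (univ : Finset α), g k ^ (if k = a then (1 : ℤ) else if k = b then -1 else 0) =
      (if k = a then g k else 1) * (if k = b then (g k)⁻¹ else 1) := by
    intro k _
    by_cases h1 : k = a
    · have h2 : ¬ k = b := fun h2 => hab (h1.symm.trans h2)
      simp [h1, hab]
    · by_cases h2 : k = b
      · simp [h2, Ne.symm hab]
      · simp [h1, h2]
  rw [prod_congr rfl h, prod_mul_distrib, prod_ite_eq', prod_ite_eq']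
  simp

/-- The generic elements. -/
noncomputable def gen (K : Type) [Field K] (n : ℕ) (q : Fin n × Fin 2) : LL K n :=
  algebraMap (MvPolynomial (Fin n × Fin 2) K) (LL K n) (X q)

theorem gen_indep (K : Type) [Field K] (n : ℕ) : AlgebraicIndependent K (gen K n) := by
  have h := (MvPolynomial.algebraicIndependent_X (Fin n × Fin 2) K)
  have h2 : Function.Injective (IsScalarTower.toAlgHom K (MvPolynomial (Fin n × Fin 2) K)
      (LL K n)) := by
    rw [IsScalarTower.coe_toAlgHom']
    exact IsFractionRing.injective (MvPolynomial (Fin n × Fin 2) K) (LL K n)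
  have h3 := h.map' h2
  have h4 : gen K n = (IsScalarTower.toAlgHom K (MvPolynomial (Fin n × Fin 2) K)
      (LL K n)) ∘ X := by
    funext q
    rw [Function.comp, IsScalarTower.coe_toAlgHom']
    rfl
  rw [h4]
  exact h3

theorem gen_ne (K : Type) [Field K] (n : ℕ) (q : Fin n × Fin 2) : gen K n q ≠ 0 := by
  intro h
  have h2 : (X q : MvPolynomial (Fin n × Fin 2) K) = 0 :=
    IsFractionRing.injective (MvPolynomial (Fin n × Fin 2) K) (LL K n) (h.trans (map_zero _).symm)
  exact X_ne_zero q h2

theorem valuation_exists (hV : VALStm) (K : Type) [Field K] (n : ℕ) (σ : Equiv.Perm (Fin n)) :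
    ∃ V : ValuationSubring (LL K n), ∀ i j, σ i < σ j →
      V.valuation (gen K n (i, 1) * gen K n (j, 0) / (gen K n (i, 0) * gen K n (j, 1))) < 1 := by
  classical
  let ee : Fin (n + n) → Fin n × Fin 2 :=
    Fin.addCases (fun k => (σ.symm k, 1)) (fun k => (k, 0))
  have hl : ∀ k, ee (Fin.castAdd n k) = (σ.symm k, 1) := fun k => Fin.addCases_left k
  have hr : ∀ k, ee (Fin.natAdd n k) = (k, 0) := fun k => Fin.addCases_right k
  have hinj : Function.Injective ee := by
    intro u v huv
    induction u using Fin.addCases with
    | left u =>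
      induction v using Fin.addCases with
      | left v =>
        rw [hl, hl, Prod.mk.injEq] at huv
        rw [σ.symm.injective huv.1]
      | right v =>
        rw [hl, hr, Prod.mk.injEq] at huv
        exact absurd huv.2 (by decide)
    | right u =>
      induction v using Fin.addCases with
      | left v =>
        rw [hl, hr, Prod.mk.injEq] at huv
        exact absurd huv.2 (by decide)
      | right v =>
        rw [hr, hr, Prod.mk.injEq] at huv
        rw [huv.1]
  obtain ⟨V, _, hV2⟩ := hV K (LL K n) (n + n) (gen K n ∘ ee) ((gen_indep K n).comp ee hinj)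
  refine ⟨V, fun i j hij => ?_⟩
  have hne : i ≠ j := by
    rintro rfl
    exact lt_irrefl _ hij
  let c : Fin (n + n) → ℤ :=
    Fin.addCases (fun k => if k = σ i then (1 : ℤ) else if k = σ j then -1 else 0)
      (fun k => if k = j then (1 : ℤ) else if k = i then -1 else 0)
  have cl : ∀ k, c (Fin.castAdd n k) = if k = σ i then (1 : ℤ) else if k = σ j then -1 else 0 :=
    fun k => Fin.addCases_left k
  have cr : ∀ k, c (Fin.natAdd n k) = if k = j then (1 : ℤ) else if k = i then -1 else 0 :=
    fun k => Fin.addCases_right k
  have h := hV2 c ⟨Fin.castAdd n (σ i), by rw [cl]; simp, by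
    intro k hk
    induction k using Fin.addCases with
    | left k =>
      have hk' : k < σ i := hk
      rw [cl, if_neg hk'.ne, if_neg (hk'.trans hij).ne]
    | right k =>
      exfalso
      have h1 : (Fin.natAdd n k : Fin (n + n)).val < (Fin.castAdd n (σ i) : Fin (n + n)).val := hk
      simp at h1
      omega⟩
  have hprod : (∏ k, (gen K n ∘ ee) k ^ c k) =
      gen K n (i, 1) * gen K n (j, 0) / (gen K n (i, 0) * gen K n (j, 1)) := by
    rw [Fin.prod_univ_add]
    simp only [Function.comp, hl, hr, cl, cr]
    rw [prod2 (fun k => gen K n (σ.symm k, 1)) hij.ne, prod2 (fun k => gen K n (k, 0)) hne.symm]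
    simp only [σ.symm_apply_apply]
    have h1 := gen_ne K n (i, 0)
    have h2 := gen_ne K n (j, 1)
    field_simp
  rw [hprod] at h
  exact h

theorem forc (hV : VALStm) (hB : FORBStm) : FORCStm := by
  classical
  intro K _ n ι _ a b hab σ hF
  rw [Fintype.linearIndependent_iff]
  intro g hg
  obtain ⟨V, hVv⟩ := valuation_exists hV K n σ
  set x : Fin n → LL K n := fun k => gen K n (k, 0) with hx
  set y : Fin n → LL K n := fun k => gen K n (k, 1) with hy
  have hx0 : ∀ k, x k ≠ 0 := fun k => gen_ne K n _
  have hy0 : ∀ k, y k ≠ 0 := fun k => gen_ne K n _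
  set T := tl σ a b with hT
  set H := hd σ a b with hH
  have hTH : ∀ e, σ (T e) < σ (H e) := by
    intro e
    simp only [hT, hH, tl, hd]
    split_ifs with h1
    · exact h1
    · exact lt_of_le_of_ne (not_lt.1 h1) (fun h2 => hab e (σ.injective h2.symm))
  set ε : ι → LL K n := fun e => if σ (a e) < σ (b e) then 1 else -1 with hε
  have hε0 : ∀ e, ε e ≠ 0 := by
    intro e
    simp only [hε]
    split_ifs
    · exact one_ne_zero
    · exact neg_ne_zero.2 one_ne_zero
  have hrow : ∀ e i (s : Fin 2), row K n (a e, b e) (i, s) =
      (if T e = i then ε e * gen K n (H e, s) else 0) -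
        (if H e = i then ε e * gen K n (T e, s) else 0) := by
    intro e i s
    have hvec : ∀ k, vec K n k s = gen K n (k, s) := fun k => rfl
    simp only [row, hvec, hT, hH, hε, tl, hd]
    have hne := hab e
    by_cases h1 : σ (a e) < σ (b e)
    · simp only [if_pos h1]
      by_cases h2 : i = a e
      · subst h2
        simp [hne.symm]
      · by_cases h3 : i = b e
        · subst h3
          simp [hne.symm, hne]
        · simp [h2, h3, Ne.symm h2, Ne.symm h3]
    · simp only [if_neg h1]
      by_cases h2 : i = a e
      · subst h2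
        simp [hne.symm]
      · by_cases h3 : i = b e
        · subst h3
          simp [hne.symm, hne]
        · simp [h2, h3, Ne.symm h2, Ne.symm h3]
  have hrel : ∀ i (s : Fin 2), ∑ e, (if T e = i then g e * ε e * gen K n (H e, s) else 0) =
      ∑ e, (if H e = i then g e * ε e * gen K n (T e, s) else 0) := by
    intro i s
    have h1 := congrFun hg (i, s)
    rw [Finset.sum_apply] at h1
    simp only [Pi.smul_apply, smul_eq_mul, hrow, Pi.zero_apply] at h1
    rw [← sub_eq_zero, ← sum_sub_distrib]
    refine (sum_congr rfl fun e _ => ?_).trans h1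
    split_ifs <;> ring
  set c : ι → LL K n := fun e => g e * ε e * (x (T e) * y (H e)) with hc
  set w : ι → LL K n := fun e => y (T e) * x (H e) / (x (T e) * y (H e)) with hw
  have hcw : ∀ e, c e * w e = g e * ε e * (y (T e) * x (H e)) := by
    intro e
    simp only [hc, hw]
    have h1 := hx0 (T e)
    have h2 := hy0 (H e)
    field_simp
  have hA : ∀ i, ∑ e, (if T e = i then c e else 0) = ∑ e, (if H e = i then c e * w e else 0) := by
    intro i
    have h1 := congrArg (fun z => x i * z) (hrel i 1)
    simp only [mul_sum] at h1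
    have e1 : ∑ e, (if T e = i then c e else 0) =
        ∑ e, x i * (if T e = i then g e * ε e * gen K n (H e, 1) else 0) := by
      refine sum_congr rfl fun e _ => ?_
      split_ifs with h2
      · simp only [hc, h2, hy]
        ring
      · ring
    have e2 : ∑ e, (if H e = i then c e * w e else 0) =
        ∑ e, x i * (if H e = i then g e * ε e * gen K n (T e, 1) else 0) := by
      refine sum_congr rfl fun e _ => ?_
      rw [hcw]
      split_ifs with h2
      · simp only [h2, hy]
        ring
      · ring
    rw [e1, e2, h1]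
  have hA' : ∀ i, ∑ e, (if H e = i then c e else 0) = ∑ e, (if T e = i then c e * w e else 0) := by
    intro i
    have h1 := congrArg (fun z => y i * z) (hrel i 0)
    simp only [mul_sum] at h1
    have e1 : ∑ e, (if H e = i then c e else 0) =
        ∑ e, y i * (if H e = i then g e * ε e * gen K n (T e, 0) else 0) := by
      refine sum_congr rfl fun e _ => ?_
      split_ifs with h2
      · simp only [hc, h2, hx]
        ring
      · ring
    have e2 : ∑ e, (if T e = i then c e * w e else 0) =
        ∑ e, y i * (if T e = i then g e * ε e * gen K n (H e, 0) else 0) := by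
      refine sum_congr rfl fun e _ => ?_
      rw [hcw]
      split_ifs with h2
      · simp only [h2, hx]
        ring
      · ring
    rw [e1, e2, h1]
  have hc0 := core hB V T H hF c w (fun e => hVv _ _ (hTH e)) hA hA'
  intro e
  have h1 : g e * ε e * (x (T e) * y (H e)) = 0 := congrFun hc0 e
  rcases mul_eq_zero.1 h1 with h2 | h2
  · rcases mul_eq_zero.1 h2 with h3 | h3
    · exact h3
    · exact absurd h3 (hε0 e)
  · exact absurd h2 (mul_ne_zero (hx0 _) (hy0 _))

end Pool.Agent.K1H4.KA
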